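import Pool.Agent.Helper478_Kwise.G

/-!
# The central limit theorem for the numbers of ones among the binary digits of `√m`

Let `m` be taken at random in `(N, 2 N]`, let `W_1, …, W_r` be `r` disjoint windows of places in
`[1, (log N) ^ (1 + γ)]` which depend on `N` in any way, with lengths `L_1, …, L_r → ∞` (as slowly as one
likes), and let `S_i` be the number of ones among the binary digits of `√m` at the places in `W_i`. Then
`(S_i - L_i / 2) / (√L_i / 2)`, `i ≤ r`, converge jointly in distribution to `r` independent standard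
normal variables: the numbers of ones behave as for coin tossing, with the right order and the right law
of the fluctuations, far beyond the about `log N` bits of `m`. The same holds for `x m ^ θ` with any real
`x ≠ 0` and `0 < θ < 1` in place of `√m`, for instance for `√2 m ^ θ`.

Proof. The digits at any `k ≤ (log N) ^ (3 / 4)` places are almost independent
(`Pool.Agent.Helper478.Kwise.kwi`, by Vinogradov's mean value theorem and the method of
Vinogradov and Korobov). In the characteristic function of `∑ θ_i (S_i - L_i / 2) / (√L_i / 2)` the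
exponential is replaced by its Taylor polynomial of degree `≤ (log N) ^ (1 / 2)`; the moments that occur are
those of independent digits up to `exp (- (log N) ^ (3 / 4) / 2)`.
-/

set_option autoImplicit false

open Filter Topology

namespace Pool.Agent.Results.MP_0308e6_nt.CentralLimitTheorem

/-- The number of ones among the binary digits of `y ≥ 0` at the places `u < p ≤ u + L` after the
point. -/
noncomputable def ones (y : ℝ) (u L : ℕ) : ℕ := {p : ℕ | u < p ∧ p ≤ u + L ∧ ⌊y * 2 ^ p⌋ % 2 = 1}.ncard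

/-- There is an absolute constant `γ > 0` such that for all `0 < θ < 1`, all real `x ≠ 0` and all
`r ≥ 1` the following holds. For each `N` let `r` windows of places `u_i < p ≤ u_i + L_i` be given
(`u_i = u N i`, `L_i = L N i`) which for all large `N` are disjoint and contained in
`[1, (log N) ^ (1 + γ)]`, and let `L_i → ∞` as `N → ∞`, for each `i`. Then for all real `t_1, …, t_r` the
proportion of the integers `N < m ≤ 2 N` for which the numbers `S_i` of ones at the
places `u_i < p ≤ u_i + L_i` of `x m ^ θ` satisfy `(S_i - L_i / 2) / (√L_i / 2) ≤ t_i` for all `i`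
tends to `Φ(t_1) ⋯ Φ(t_r)`, where `Φ(t)` is the probability that a standard normal variable is `≤ t`. -/
theorem result : ∃ γ : ℝ, 0 < γ ∧ ∀ θ : ℝ, 0 < θ → θ < 1 → ∀ x : ℝ, x ≠ 0 → ∀ r : ℕ, 1 ≤ r →
    ∀ u L : ℕ → Fin r → ℕ,
    (∀ᶠ N : ℕ in atTop, ∀ i, ((u N i + L N i : ℕ) : ℝ) ≤ (Real.log N) ^ (1 + γ)) →
    (∀ᶠ N : ℕ in atTop, ∀ i i', i ≠ i' → Disjoint (Set.Ioc (u N i) (u N i + L N i))
      (Set.Ioc (u N i') (u N i' + L N i'))) →
    (∀ i, Tendsto (fun N => L N i) atTop atTop) → ∀ t : Fin r → ℝ,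
    Tendsto (fun N : ℕ => ({m : ℕ | N < m ∧ m ≤ 2 * N ∧ ∀ i,
      ((ones (x * (m : ℝ) ^ θ) (u N i) (L N i) : ℝ) - L N i / 2) / (√(L N i) / 2) ≤ t i}.ncard : ℝ) / N)
      atTop (𝓝 (∏ i, (ProbabilityTheory.gaussianReal 0 1).real (Set.Iic (t i)))) := by
  classical
  obtain ⟨γ, h1, h⟩ := Pool.Agent.Helper478.Kwise.clt
  refine ⟨γ, h1, fun θ hθ0 hθ1 x hx r hr u L hu hdis hL t => ?_⟩
  haveI : Nonempty (Fin r) := ⟨⟨0, hr⟩⟩
  have hL1 : ∀ᶠ N in atTop, ∀ i, 1 ≤ L N i := by
    rw [eventually_all]
    exact fun i => (hL i).eventually_ge_atTop 1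
  have h2 := h θ (by linarith) hθ1 hθ0.ne' x hx θ hθ0 2 le_rfl (fun d => 2 * (d : ℝ) - 1)
    (by norm_num [Finset.sum_range_succ]) (by norm_num [Finset.sum_range_succ]) (Fin r) u L
    (by
      filter_upwards [hu, eventually_ge_atTop 1] with N hN hN1 i
      refine ⟨?_, hN i⟩
      have hN0 : (0 : ℝ) < N := by exact_mod_cast (by omega : 0 < N)
      have h2 : 0 < (N : ℝ) ^ θ := Real.rpow_pos_of_pos hN0 _
      have h3 : (1 : ℝ) ≤ ((2 : ℕ) : ℝ) ^ (u N i) := one_le_pow₀ (by norm_num)
      nlinarith)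
    (by
      filter_upwards [hdis, hL1] with N hN hN1 i i' hne
      have h3 := hN i i' hne
      rw [Set.disjoint_left] at h3
      by_contra hcon
      push Not at hcon
      have h4 := hN1 i
      have h5 := hN1 i'
      refine h3 (a := min (u N i + L N i) (u N i' + L N i')) ?_ ?_
      · rw [Set.mem_Ioc]; omega
      · rw [Set.mem_Ioc]; omega) hL t
  refine h2.congr fun N => ?_
  congr 2
  rw [← Set.ncard_coe_finset]
  congr 1
  ext m
  simp only [Finset.coe_filter, Finset.mem_Ioc, Set.mem_ofPred_eq]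
  rw [and_assoc]
  refine and_congr_right fun _ => and_congr_right fun _ => forall_congr' fun i => ?_
  have h3 : ∑ p ∈ Finset.Ioc (u N i) (u N i + L N i), (2 * (((⌊x * (m : ℝ) ^ θ * ((2 : ℕ) : ℝ) ^ p⌋ %
      ((2 : ℕ) : ℤ) : ℤ)) : ℝ) - 1) = 2 * (ones (x * (m : ℝ) ^ θ) (u N i) (L N i) : ℝ) - L N i := by
    have h4 : ones (x * (m : ℝ) ^ θ) (u N i) (L N i) =
        ((Finset.Ioc (u N i) (u N i + L N i)).filter fun p : ℕ =>
          ⌊x * (m : ℝ) ^ θ * ((2 : ℕ) : ℝ) ^ p⌋ % ((2 : ℕ) : ℤ) = 1).card := by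
      unfold ones
      rw [← Set.ncard_coe_finset]
      congr 1
      ext p
      simp only [Set.mem_ofPred_eq, Finset.coe_filter, Finset.mem_Ioc]
      push_cast
      tauto
    rw [h4, Finset.sum_sub_distrib, ← Finset.mul_sum, Finset.sum_const, Nat.card_Ioc, nsmul_eq_mul, mul_one,
      Finset.card_filter, Nat.add_sub_cancel_left]
    push_cast
    congr 2
    refine Finset.sum_congr rfl fun p _ => ?_
    rcases Int.emod_two_eq_zero_or_one ⌊x * (m : ℝ) ^ θ * 2 ^ p⌋ with h5 | h5
    · rw [h5]; norm_num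
    · rw [h5]; norm_num
  rw [h3]
  have h4 : ((ones (x * (m : ℝ) ^ θ) (u N i) (L N i) : ℝ) - L N i / 2) / (√(L N i) / 2) =
      (2 * (ones (x * (m : ℝ) ^ θ) (u N i) (L N i) : ℝ) - L N i) / √(L N i) := by
    rcases eq_or_ne (√(L N i : ℝ)) 0 with h0 | h0
    · rw [h0]; simp
    · field_simp
  rw [h4]

end Pool.Agent.Results.MP_0308e6_nt.CentralLimitTheorem
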