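import Pool.Agent.Helper478_Kwise.I

/-!
# The central limit theorem for the digits of the numbers `√(2 + j / N)`, which are close to `√2`

Let `j` be taken at random among the integers `1 ≤ j ≤ M`, where `M ≥ N ^ ρ` and `ρ > 0` is as small as one likes.
The number `√(2 + j / N)` differs from `√2` by less than `N ^ (ρ - 1)` if `M = N ^ ρ`. The numbers of ones among its
binary digits in any disjoint windows between the places `K log N` and `(log N) ^ (1 + γ)`, of lengths which tend to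
infinity (as slowly as one likes), are jointly asymptotically normal and independent, with the mean and the
variance of coin tossing. The same holds in all bases, for all functions of a digit, and for the numbers
`x (α + j / N) ^ θ`, `α > 0`, `x ≠ 0`, `-1 ≤ θ < 1`, `θ ≠ 0`.

Proof. Vinogradov's mean value theorem of growing degree (only one Taylor coefficient can be used as the interval
may be as short as `N ^ ρ`) shows that the digits at any `k ≤ (log N) ^ (3 / 4)` places are almost independent; then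
the characteristic function is expanded up to the degree `(log N) ^ (1 / 2)`.
-/

set_option autoImplicit false

open Filter Topology
open Pool.Agent.Helper478.Dig (digitSum mean variance)

namespace Pool.Agent.Results.MP_0308e6_nt.GaussianPerturbations

theorem result : ∃ γ : ℝ, 0 < γ ∧ ∀ α x θ : ℝ, 0 < α → x ≠ 0 → -1 ≤ θ → θ < 1 → θ ≠ 0 →
    ∀ ρ : ℝ, 0 < ρ → ρ ≤ 1 → ∃ K : ℝ, ∀ b : ℕ, 2 ≤ b → ∀ g : ℕ → ℝ, (∃ d < b, g d ≠ g 0) →
    ∀ M : ℕ → ℕ, (∀ᶠ N : ℕ in atTop, (N : ℝ) ^ ρ ≤ M N ∧ (M N : ℝ) ≤ α * N) →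
    ∀ r : ℕ, 1 ≤ r → ∀ u L : ℕ → Fin r → ℕ,
    (∀ᶠ N : ℕ in atTop, ∀ i, K * Real.log N ≤ u N i * Real.log b ∧
      ((u N i + L N i : ℕ) : ℝ) * Real.log b ≤ (Real.log N) ^ (1 + γ)) →
    (∀ᶠ N : ℕ in atTop, ∀ i i', i ≠ i' → Disjoint (Set.Ioc (u N i) (u N i + L N i))
      (Set.Ioc (u N i') (u N i' + L N i'))) →
    (∀ i, Tendsto (fun N => L N i) atTop atTop) → ∀ t : Fin r → ℝ,
    Tendsto (fun N : ℕ => ({j : ℕ | 1 ≤ j ∧ j ≤ M N ∧ ∀ i,
      (digitSum b g (x * (α + (j : ℝ) / N) ^ θ) (u N i) (L N i) - mean b g * L N i) /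
        √(variance b g * L N i) ≤ t i}.ncard : ℝ) / M N)
      atTop (𝓝 (∏ i, (ProbabilityTheory.gaussianReal 0 1).real (Set.Iic (t i)))) := by
  classical
  obtain ⟨γ, hγ0, hγ1, h⟩ := Pool.Agent.Helper478.Kwise.pert_exp
  refine ⟨γ / 2, by positivity, ?_⟩
  intro α x θ hα hx h1 h2 h3 ρ hρ0 hρ1
  obtain ⟨C, N₀, hC, hCN⟩ := h α x θ hα hx h1 h2 h3 ρ hρ0 hρ1
  refine ⟨C, ?_⟩
  intro b hb g hg M hM r hr u L hu hdis hL t
  have hlog : Tendsto (fun N : ℕ => Real.log N) atTop atTop :=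
    Real.tendsto_log_atTop.comp tendsto_natCast_atTop_atTop
  have hM1 : ∀ᶠ N : ℕ in atTop, 1 ≤ M N := by
    filter_upwards [hM, eventually_ge_atTop 1] with N h1 h2
    have h3 : (1 : ℝ) ≤ (N : ℝ) ^ ρ := Real.one_le_rpow (by exact_mod_cast h2) hρ0.le
    exact_mod_cast h3.trans h1.1
  have key := Pool.Agent.Helper478.Kwise.clt_dig C (γ / 2) γ (by positivity) (by linarith) (by linarith) b hb g hg
    (fun N => Real.log N) hlog (fun N => Finset.Ioc 0 (max (M N) 1))
    (fun N => ⟨1, by rw [Finset.mem_Ioc]; omega⟩) (fun N j => x * (α + (j : ℝ) / N) ^ θ)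
    (by
      filter_upwards [hM, hM1, eventually_ge_atTop N₀] with N e1 e2 e3 F f1 f2
      rw [max_eq_left e2, Nat.card_Ioc, Nat.sub_zero]
      exact hCN N (M N) e3 e1.1 e1.2 F f1 f2) r hr u L hu hdis hL t
  refine key.congr' ?_
  filter_upwards [hM1] with N e2
  rw [max_eq_left e2, Nat.card_Ioc, Nat.sub_zero, ← Set.ncard_coe_finset]
  congr 3
  ext j
  simp only [Finset.coe_filter, Finset.mem_Ioc, Set.mem_ofPred_eq]
  rw [and_assoc]
  rfl

end Pool.Agent.Results.MP_0308e6_nt.GaussianPerturbations
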