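import Pool.Agent.Helper478_Short.Fin

/-!
# The digits of the numbers `√(2 + j / N)`, which are close to `√2`

For all but a small proportion of the integers `j ≤ N ^ ρ`, where `ρ > 0` is as small as one likes, the
number `√(2 + j / N)`, which agrees with `√2` in about the first `(1 - ρ) log₂ N` binary digits, has
equidistributed digits, in all bases at once, in all windows of at least `(log N) ^ (1 - γ)` places between
the place `K log N / log b` and the place `(log N) ^ (1 + γ) / log b`. The number `√2` may be replaced by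
`x α ^ θ` with any real `α > 0`, `x ≠ 0` and `-1 ≤ θ < 1`, `θ ≠ 0` (the numbers `x (α + j / N) ^ θ`); for
`α = 1`, `θ = -1` these are the rational multiples `x N / (N + j)` of `x`.

Proof. The numbers are `x N ^ (-θ) (N' + j - s) ^ θ` with an integer `N'` and `0 ≤ s < 1`. The exponential
sums over `j ≤ M` with frequencies between `N ^ (C / ρ)` and `exp ((log N) ^ (1 + γ))` are estimated by
Vinogradov's mean value theorem of growing degree; as `M` may be `N ^ ρ`, only one of the Taylor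
coefficients is used, one of the order of magnitude for which the method works in such a short
interval. Then a large deviation bound is applied to blocks of digits.
-/

set_option autoImplicit false

namespace Pool.Agent.Results.MP_0308e6_nt.PerturbationsOfSqrtTwo

open Finset Filter

/-- The points `y b ^ i`, `u < i ≤ v`, have discrepancy at most `ε` modulo one. -/
def DiscrepancyAtMost (y : ℝ) (b u v : ℕ) (ε : ℝ) : Prop :=
  ∀ p q : ℝ, 0 ≤ p → p < q → q ≤ 1 →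
    |(({i : ℕ | u < i ∧ i ≤ v ∧ p ≤ Int.fract (y * (b : ℝ) ^ i) ∧
      Int.fract (y * (b : ℝ) ^ i) < q}.ncard : ℕ) : ℝ) - (q - p) * ((v : ℝ) - u)| ≤ ε * ((v : ℝ) - u)

theorem result : ∃ γ : ℝ, 0 < γ ∧ ∀ α x θ : ℝ, 0 < α → x ≠ 0 → -1 ≤ θ → θ < 1 → θ ≠ 0 →
    ∀ ρ : ℝ, 0 < ρ → ρ ≤ 1 → ∃ K : ℝ, ∀ ε : ℝ, 0 < ε → ∃ N₀ : ℕ, ∀ N M : ℕ, N₀ ≤ N →
      (N : ℝ) ^ ρ ≤ M → (M : ℝ) ≤ α * N →
      (({j : ℕ | 1 ≤ j ∧ j ≤ M ∧ ∃ b u v : ℕ, 2 ≤ b ∧ (Real.log N) ^ (1 - γ) ≤ (v : ℝ) - u ∧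
        v * Real.log b ≤ (Real.log N) ^ (1 + γ) ∧ K * Real.log N ≤ u * Real.log b ∧
        ¬ DiscrepancyAtMost (x * (α + (j : ℝ) / N) ^ θ) b u v ε}.ncard : ℕ) : ℝ) ≤
          M * Real.exp (-(√(Real.log N) / 2)) := by
  classical
  obtain ⟨γ, hγ0, hγ1, h⟩ := Pool.Agent.Helper478.Short.short_digits
  refine ⟨γ / 2, by positivity, ?_⟩
  intro α x θ hα hx h1 h2 h3 ρ hρ0 hρ1
  refine ⟨41 / ρ, fun ε hε => ?_⟩
  obtain ⟨N₁, hN₁⟩ := h θ h1 h2 h3 (ρ / 2) (by positivity) (by linarith) ε hε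
  have hx0 : 0 < |x| := abs_pos.2 hx
  obtain ⟨c₁, hc₁⟩ : ∃ c : ℝ, c = min (α ^ θ) ((α + 1) ^ θ) := ⟨_, rfl⟩
  obtain ⟨c₂, hc₂⟩ : ∃ c : ℝ, c = max (α ^ θ) ((α + 1) ^ θ) := ⟨_, rfl⟩
  have hc₁0 : 0 < c₁ := by
    rw [hc₁]; exact lt_min (Real.rpow_pos_of_pos hα _) (Real.rpow_pos_of_pos (by linarith) _)
  have hmono : ∀ t : ℝ, α ≤ t → t ≤ α + 1 → c₁ ≤ t ^ θ ∧ t ^ θ ≤ c₂ := by
    intro t ht1 ht2
    have ht0 : 0 < t := by linarith
    rcases le_total 0 θ with hθ | hθ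
    · exact ⟨by rw [hc₁]; exact (min_le_left _ _).trans (Real.rpow_le_rpow hα.le ht1 hθ),
        by rw [hc₂]; exact (Real.rpow_le_rpow ht0.le ht2 hθ).trans (le_max_right _ _)⟩
    · exact ⟨by rw [hc₁]; exact (min_le_right _ _).trans (Real.rpow_le_rpow_of_nonpos ht0 ht2 hθ),
        by rw [hc₂]; exact (Real.rpow_le_rpow_of_nonpos hα ht1 hθ).trans (le_max_left _ _)⟩
  have hlog : Tendsto (fun N : ℕ => Real.log N) atTop atTop :=
    Real.tendsto_log_atTop.comp tendsto_natCast_atTop_atTop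
  have hid : Tendsto (fun N : ℕ => (N : ℝ)) atTop atTop := tendsto_natCast_atTop_atTop
  -- eventual inequalities in `y = log N`
  obtain ⟨A, hA⟩ : ∃ A : ℝ, A = |Real.log α| + |Real.log (α + 1)| + 1 := ⟨_, rfl⟩
  have hA1 : 1 ≤ A := by rw [hA]; linarith [abs_nonneg (Real.log α), abs_nonneg (Real.log (α + 1))]
  have ev1 : ∀ᶠ y : ℝ in atTop, (4 : ℝ) * y ^ (1 + γ / 2) ≤ y ^ (1 + γ) :=
    Pool.Agent.Helper478.Surds.ev_pow _ _ _ (by linarith)
  have ev2 : ∀ᶠ y : ℝ in atTop, (2 : ℝ) * y ^ (1 - γ) ≤ y ^ (1 - γ / 2) :=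
    Pool.Agent.Helper478.Surds.ev_pow _ _ _ (by linarith)
  have ev3 : ∀ᶠ y : ℝ in atTop, 4 * A ≤ y := eventually_ge_atTop _
  have ev4 : ∀ᶠ y : ℝ in atTop, 40 * A + |Real.log (|x| * c₁)| ≤ y := eventually_ge_atTop _
  have ev5 : ∀ᶠ y : ℝ in atTop, 4 ≤ y := eventually_ge_atTop _
  have hev := hlog.eventually ((ev1.and ev2).and ((ev3.and ev4).and ev5))
  have ev6 : ∀ᶠ t : ℝ in atTop, |x| * c₂ ≤ α * t := by
    filter_upwards [eventually_ge_atTop (|x| * c₂ / α)] with t ht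
    rw [div_le_iff₀ hα] at ht
    linarith
  have ev7 : ∀ᶠ t : ℝ in atTop, (N₁ : ℝ) + 2 ≤ α * t := by
    filter_upwards [eventually_ge_atTop (((N₁ : ℝ) + 2) / α)] with t ht
    rw [div_le_iff₀ hα] at ht
    linarith
  obtain ⟨N₀, hN₀⟩ := eventually_atTop.1 (hev.and ((hid.eventually (ev6.and ev7)).and
    (eventually_ge_atTop 2)))
  refine ⟨N₀, ?_⟩
  intro N M hN hM1 hM2
  obtain ⟨⟨⟨q1, q2⟩, ⟨q3, q4⟩, q5⟩, ⟨q6, q7⟩, q8⟩ := hN₀ N hN
  have hN0 : (0 : ℝ) < N := by exact_mod_cast (by omega : 0 < N)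
  have hN1 : (1 : ℝ) ≤ N := by exact_mod_cast (by omega : 1 ≤ N)
  obtain ⟨N', hN'⟩ : ∃ N' : ℕ, N' = ⌈α * N⌉₊ := ⟨_, rfl⟩
  have hN'1 : α * N ≤ N' := by rw [hN']; exact Nat.le_ceil _
  have hN'2 : (N' : ℝ) < α * N + 1 := by rw [hN']; exact Nat.ceil_lt_add_one (by positivity)
  have hNN₁ : N₁ ≤ N' := by
    have : (N₁ : ℝ) ≤ N' := by linarith
    exact_mod_cast this
  have hN'0 : (0 : ℝ) < N' := by
    have : (0 : ℝ) < α * N := by positivity
    linarith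
  have hN'3 : (N' : ℝ) ≤ (α + 1) * N := by linarith
  -- logarithms
  obtain ⟨y, hy⟩ : ∃ y : ℝ, y = Real.log N := ⟨_, rfl⟩
  obtain ⟨y', hy'⟩ : ∃ y' : ℝ, y' = Real.log N' := ⟨_, rfl⟩
  rw [← hy] at q1 q2 q3 q4 q5
  have hy0 : 0 < y := by linarith
  have hyA1 : y - A ≤ y' := by
    rw [hy, hy']
    have e1 : Real.log (α * N) = Real.log α + Real.log N := Real.log_mul hα.ne' hN0.ne'
    have e2 := Real.log_le_log (by positivity) hN'1
    rw [e1] at e2
    have e3 := neg_abs_le (Real.log α)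
    have e4 := abs_nonneg (Real.log (α + 1))
    linarith
  have hyA2 : y' ≤ y + A := by
    rw [hy, hy']
    have e1 : Real.log ((α + 1) * N) = Real.log (α + 1) + Real.log N :=
      Real.log_mul (by linarith) hN0.ne'
    have e2 := Real.log_le_log hN'0 hN'3
    rw [e1] at e2
    have e3 := le_abs_self (Real.log (α + 1))
    have e4 := abs_nonneg (Real.log α)
    linarith
  have hy'1 : y / 2 ≤ y' := by linarith
  have hy'2 : y' ≤ 2 * y := by linarith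
  have hy'0 : 0 < y' := by linarith
  -- the two powers
  have hw1 : y' ^ (1 - γ) ≤ y ^ (1 - γ / 2) := by
    calc y' ^ (1 - γ) ≤ (2 * y) ^ (1 - γ) := Real.rpow_le_rpow hy'0.le hy'2 (by linarith)
      _ = 2 ^ (1 - γ) * y ^ (1 - γ) := Real.mul_rpow (by norm_num) hy0.le
      _ ≤ 2 * y ^ (1 - γ) := by
          apply mul_le_mul_of_nonneg_right _ (by positivity)
          calc (2 : ℝ) ^ (1 - γ) ≤ 2 ^ (1 : ℝ) :=
                Real.rpow_le_rpow_of_exponent_le (by norm_num) (by linarith)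
            _ = 2 := Real.rpow_one _
      _ ≤ _ := q2
  have hw2 : y ^ (1 + γ / 2) ≤ y' ^ (1 + γ) := by
    have e1 : y ^ (1 + γ) ≤ 4 * y' ^ (1 + γ) := by
      calc y ^ (1 + γ) ≤ (2 * y') ^ (1 + γ) := Real.rpow_le_rpow hy0.le (by linarith) (by linarith)
        _ = 2 ^ (1 + γ) * y' ^ (1 + γ) := Real.mul_rpow (by norm_num) hy'0.le
        _ ≤ 4 * y' ^ (1 + γ) := by
            apply mul_le_mul_of_nonneg_right _ (by positivity)
            calc (2 : ℝ) ^ (1 + γ) ≤ 2 ^ (2 : ℝ) :=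
                  Real.rpow_le_rpow_of_exponent_le (by norm_num) (by linarith)
              _ = 4 := by norm_num
    linarith
  have hpow : (N : ℝ) ^ ρ = Real.exp (y * ρ) := by rw [Real.rpow_def_of_pos hN0, hy]
  have hpow' : ∀ t : ℝ, (N' : ℝ) ^ t = Real.exp (y' * t) := fun t => by
    rw [Real.rpow_def_of_pos hN'0, hy']
  -- the parameters
  obtain ⟨s, hs⟩ : ∃ s : ℝ, s = N' - α * N := ⟨_, rfl⟩
  obtain ⟨x', hx'⟩ : ∃ x' : ℝ, x' = x * (N : ℝ) ^ (-θ) := ⟨_, rfl⟩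
  have hNθ : 0 < (N : ℝ) ^ (-θ) := Real.rpow_pos_of_pos hN0 _
  have hxx : |x'| * (N' : ℝ) ^ θ = |x| * ((N' : ℝ) / N) ^ θ := by
    rw [hx', abs_mul, abs_of_pos hNθ, Real.div_rpow hN'0.le hN0.le, Real.rpow_neg hN0.le]
    ring
  obtain ⟨hr1, hr2⟩ := hmono ((N' : ℝ) / N) (by rw [le_div_iff₀ hN0]; exact hN'1)
    (by rw [div_le_iff₀ hN0]; exact hN'3)
  have key := hN₁ N' M 0 x' s hNN₁ (by
      refine le_trans ?_ hM1
      rw [hpow, hpow']
      apply Real.exp_le_exp.2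
      have : y' * ρ ≤ 2 * y * ρ := mul_le_mul_of_nonneg_right hy'2 hρ0.le
      linarith) (by
      have : (M : ℝ) ≤ N' := hM2.trans hN'1
      exact_mod_cast this) (by rw [hs]; linarith) (by rw [hs]; linarith)
      (by rw [hx']; exact mul_ne_zero hx hNθ.ne') (by
      rw [hxx]
      calc |x| * ((N' : ℝ) / N) ^ θ ≤ |x| * c₂ := by gcongr
        _ ≤ α * N := q6
        _ ≤ N' := hN'1)
  rw [← hy'] at key
  have hexp : (M : ℝ) * Real.exp (-√y') ≤ M * Real.exp (-(√(Real.log N) / 2)) := by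
    apply mul_le_mul_of_nonneg_left _ (Nat.cast_nonneg M)
    apply Real.exp_le_exp.2
    rw [← hy]
    have e1 : √y / 2 ≤ √y' := by
      rw [show √y / 2 = √(y / 4) by
        rw [Real.sqrt_div hy0.le, show (4 : ℝ) = 2 ^ 2 by norm_num, Real.sqrt_sq (by norm_num)]]
      exact Real.sqrt_le_sqrt (by linarith)
    linarith
  refine le_trans ?_ (key.trans hexp)
  have hfin : {n : ℕ | 1 ≤ n ∧ n ≤ M ∧ ∃ b u v : ℕ, 2 ≤ b ∧ y' ^ (1 - γ) ≤ (v : ℝ) - u ∧
        v * Real.log b ≤ y' ^ (1 + γ) ∧ (N' : ℝ) ^ (20 / (ρ / 2)) ≤ (b : ℝ) ^ u * (|x'| * (N' : ℝ) ^ θ) ∧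
        ¬ Pool.Agent.Helper478.Surds.EquiW (0 + x' * ((N' : ℝ) + n - s) ^ θ) b u v ε}.Finite :=
    (Set.finite_Iic M).subset fun n hn => hn.2.1
  rw [← hy]
  refine Nat.cast_le.2 (Set.ncard_le_ncard ?_ hfin)
  rintro j ⟨a1, a2, b, u, v, hb, a3, a4, a5, a6⟩
  have hb0 : (0 : ℝ) < b := by exact_mod_cast (by omega : 0 < b)
  refine ⟨a1, a2, b, u, v, hb, hw1.trans a3, a4.trans hw2, ?_, ?_⟩
  · have e0 : 0 < |x'| * (N' : ℝ) ^ θ := by
      rw [hxx]; exact mul_pos hx0 (lt_of_lt_of_le hc₁0 hr1)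
    have e1 : (b : ℝ) ^ u * (|x'| * (N' : ℝ) ^ θ) =
        Real.exp (u * Real.log b + Real.log (|x'| * (N' : ℝ) ^ θ)) := by
      rw [Real.exp_add, Real.exp_log e0, Real.exp_nat_mul, Real.exp_log hb0]
    rw [e1, hpow']
    apply Real.exp_le_exp.2
    have e2 : Real.log (|x| * c₁) ≤ Real.log (|x'| * (N' : ℝ) ^ θ) := by
      apply Real.log_le_log (by positivity)
      rw [hxx]
      gcongr
    have e3 := neg_abs_le (Real.log (|x| * c₁))
    have e4 : y' * (20 / (ρ / 2)) = 40 * y' / ρ := by field_simp; norm_num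
    have e5 : 41 / ρ * y = 41 * y / ρ := by ring
    rw [e5] at a5
    rw [e4]
    have e6 : 40 * y' / ρ + |Real.log (|x| * c₁)| ≤ 41 * y / ρ := by
      rw [div_add' _ _ _ hρ0.ne', div_le_div_iff_of_pos_right hρ0]
      have e7 : |Real.log (|x| * c₁)| * ρ ≤ |Real.log (|x| * c₁)| * 1 :=
        mul_le_mul_of_nonneg_left hρ1 (abs_nonneg _)
      linarith
    linarith
  · intro h5
    apply a6
    have e1 : 0 + x' * ((N' : ℝ) + j - s) ^ θ = x * (α + (j : ℝ) / N) ^ θ := by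
      have e2 : (N' : ℝ) + j - s = N * (α + (j : ℝ) / N) := by
        rw [hs]; field_simp; ring
      rw [e2, Real.mul_rpow hN0.le (by positivity), hx', Real.rpow_neg hN0.le, zero_add]
      have : (N : ℝ) ^ θ ≠ 0 := (Real.rpow_pos_of_pos hN0 _).ne'
      field_simp
    rw [e1] at h5
    exact h5

end Pool.Agent.Results.MP_0308e6_nt.PerturbationsOfSqrtTwo
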