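import Pool.Agent.Helper478_Lit.SD

/-!
# Digits of square roots on all scales, with square root error

Let `g` be a real function which is analytic at `0` and let `β_n = n ^ θ g (n ^ (-s))`, where
`t ^ θ g (t ^ (-s))` is not a polynomial for large `t`; for instance `β_n = √n` (see `sqrt_family`),
`√(2 n ^ 2 + 1)`, `π / n`, `e ^ (1 / n)`. We show: for almost all `n` in every short interval
`(N, N + N ^ ρ]`, for all bases `b ≤ exp ((log N) ^ κ)`, all windows `(u, u + K]` of at least `(log N) ^ δ`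
places between `C log N / log b` and `(log N) ^ (1 + γ) / log b`, and all arcs `[α₁, α₂)`, however small,
the number of the points `b ^ i β_n` mod 1, `u < i ≤ u + K`, in the arc is `K (α₂ - α₁)` with an error of at most
`K ^ ε (1 + √(K (α₂ - α₁)))`.

Taking for the arcs the intervals `[v / b ^ l, (v + 1) / b ^ l)` one sees: every word of `l` digits with
`b ^ l ≤ K ^ (1 - 3 ε)` occurs in the window about `K / b ^ l` times (so all words of length up to `(1 - 3 ε)` times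
`log K / log b` do occur, and no longer words can all occur), and no word with `b ^ l ≥ K` occurs more than
`3 K ^ ε` times.

Proof. The places are divided into `K ^ (O (ε))` separated sets with at most `(log N) ^ (1 - 10 γ')` elements. For
these the exponential moments of the number of hits are computed, using that exponential sums over `n` with frequency
between `N ^ C` and `exp ((log N) ^ (1 + γ'/2))` are bounded by `exp (- 2 (log N) ^ (1 - 9 γ'))`, from Vinogradov's mean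
value theorem with growing degree; this gives Bernstein's inequality.
-/

set_option autoImplicit false

open Filter Topology

namespace Pool.Agent.Results.MP_0308e6_nt.SmallArcs

/-- For every arc `[α₁, α₂)` the number of the places `u < i ≤ u + K` for which the fractional part of
`b ^ i β` lies in `[α₁, α₂)` differs from `K (α₂ - α₁)` by at most `K ^ ε (1 + √(K (α₂ - α₁)))`. -/
def AllScales (β : ℝ) (b u K : ℕ) (ε : ℝ) : Prop :=
  ∀ α₁ α₂ : ℝ, 0 ≤ α₁ → α₁ < α₂ → α₂ ≤ 1 →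
    |(({i : ℕ | u < i ∧ i ≤ u + K ∧ α₁ ≤ Int.fract ((b : ℝ) ^ i * β) ∧
      Int.fract ((b : ℝ) ^ i * β) < α₂}.ncard : ℕ) : ℝ) - K * (α₂ - α₁)| ≤
    (K : ℝ) ^ ε * (1 + √(K * (α₂ - α₁)))

lemma card_eq (b u K : ℕ) (α₁ α₂ x : ℝ) :
    (({i : ℕ | u < i ∧ i ≤ u + K ∧ α₁ ≤ Int.fract ((b : ℝ) ^ i * x) ∧
      Int.fract ((b : ℝ) ^ i * x) < α₂}.ncard : ℕ) : ℝ) = Pool.Agent.Helper478.Lit.cnt b u K α₁ α₂ x := by
  classical
  have h1 : {i : ℕ | u < i ∧ i ≤ u + K ∧ α₁ ≤ Int.fract ((b : ℝ) ^ i * x) ∧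
      Int.fract ((b : ℝ) ^ i * x) < α₂} = (((Finset.Ioc u (u + K)).filter fun i =>
        α₁ ≤ Int.fract ((b : ℝ) ^ i * x) ∧ Int.fract ((b : ℝ) ^ i * x) < α₂ : Finset ℕ) : Set ℕ) := by
    ext i
    simp only [Set.mem_setOf_eq, Finset.coe_filter, Finset.mem_Ioc]
    tauto
  rw [h1, Set.ncard_coe_finset, Finset.card_filter, Pool.Agent.Helper478.Lit.cnt]
  push_cast
  rfl

theorem result : ∀ ε : ℝ, 0 < ε → ε < 1 → ∃ γ : ℝ, 0 < γ ∧ ∀ (θ s : ℝ), 0 < s → s ≤ 1 →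
    ∀ g : ℝ → ℝ, AnalyticAt ℝ g 0 →
    (¬ ∃ P : Polynomial ℝ, ∀ᶠ t : ℝ in atTop, t ^ θ * g (t ^ (-s)) = P.eval t) →
    ∀ ρ : ℝ, 0 < ρ → ρ ≤ 1 → ∃ C : ℝ, ∀ δ : ℝ, 0 < δ → δ < 1 → ∃ κ : ℝ, 0 < κ ∧ ∃ N₀ : ℕ,
      ∀ (N M : ℕ), N₀ ≤ N → (N : ℝ) ^ ρ ≤ M → M ≤ N →
      (({n : ℕ | N < n ∧ n ≤ N + M ∧ ∃ b u K : ℕ, 2 ≤ b ∧ Real.log b ≤ (Real.log N) ^ κ ∧
        C * Real.log N ≤ u * Real.log b ∧ ((u : ℝ) + K) * Real.log b ≤ (Real.log N) ^ (1 + γ) ∧
        (Real.log N) ^ δ ≤ K ∧ ¬ AllScales ((n : ℝ) ^ θ * g ((n : ℝ) ^ (-s))) b u K ε}.ncard : ℕ) : ℝ) ≤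
        M * Real.exp (-(Real.log N) ^ κ) := by
  classical
  intro ε hε0 hε1
  obtain ⟨γ, hγ0, h⟩ := Pool.Agent.Helper478.Lit.sa ε hε0 hε1
  refine ⟨γ, hγ0, ?_⟩
  intro θ s hs0 hs1 g hg hpoly ρ hρ0 hρ1
  obtain ⟨C, hC⟩ := h θ s hs0 hs1 g hg hpoly ρ hρ0 hρ1
  refine ⟨C, ?_⟩
  intro δ hδ0 hδ1
  obtain ⟨κ, hκ0, N₀, hN₀⟩ := hC δ hδ0 hδ1
  refine ⟨κ, hκ0, N₀, ?_⟩
  intro N M hN hM1 hM2
  refine le_trans ?_ (hN₀ N M hN hM1 hM2)
  rw [← Set.ncard_coe_finset]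
  refine Nat.cast_le.2 (le_trans (Set.ncard_le_ncard ?_ ((Finset.finite_toSet _).image (fun n => N + n)))
    (Set.ncard_image_le (Finset.finite_toSet _)))
  rintro n ⟨a1, a2, b, u, K, a3, a4, a5, a6, a7, a8⟩
  refine ⟨n - N, ?_, by simp only; omega⟩
  rw [Finset.mem_coe, Finset.mem_filter, Finset.mem_Ioc]
  refine ⟨⟨by omega, by omega⟩, b, u, K, a3, a4, a5, a6, a7, ?_⟩
  have e1 : (N : ℝ) + ((n - N : ℕ) : ℝ) = n := by
    rw [Nat.cast_sub a1.le]; ring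
  rw [e1]
  intro c
  apply a8
  intro α₁ α₂ h1 h2 h3
  rw [card_eq]
  exact c α₁ α₂ h1 h2 h3

/-- Example: `β_n = √n` satisfies the hypotheses of `result` (`θ = 1 / 2`, `s = 1`, `g = 1`). -/
theorem sqrt_family : AnalyticAt ℝ (fun _ : ℝ => (1 : ℝ)) 0 ∧
    ¬ ∃ P : Polynomial ℝ, ∀ᶠ t : ℝ in atTop, t ^ (1 / 2 : ℝ) * 1 = P.eval t := by
  refine ⟨analyticAt_const, ?_⟩
  rintro ⟨P, hP⟩
  have h1 : ∀ᶠ t : ℝ in atTop, (P ^ 2).eval t = (Polynomial.X : Polynomial ℝ).eval t := by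
    filter_upwards [hP, eventually_ge_atTop 0] with t ht ht0
    rw [Polynomial.eval_pow, ← ht, mul_one, ← Real.sqrt_eq_rpow, Real.sq_sqrt ht0, Polynomial.eval_X]
  obtain ⟨t₀, ht₀⟩ := eventually_atTop.1 h1
  have h2 : P ^ 2 = Polynomial.X :=
    Polynomial.eq_of_infinite_eval_eq _ _ ((Set.Ici_infinite t₀).mono fun t ht => ht₀ t ht)
  have h3 := congrArg Polynomial.natDegree h2
  rw [Polynomial.natDegree_pow, Polynomial.natDegree_X] at h3
  omega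

end Pool.Agent.Results.MP_0308e6_nt.SmallArcs
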